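import Mathlib

/-!
Point count, one step: the equation `u v^α + H(p, v) = 0`.
-/

namespace Pool.Agent.Helper49.KP

open scoped Classical in
/-- The solutions of `u v^α + H(p, v) = 0`: with `v ≠ 0` the value of `u` is determined, with
`v = 0` it is free. -/
noncomputable def stepEquiv {V K : Type} [Field K] (α : ℕ) (hα : 0 < α) (H : V → K → K) :
    {x : (V × K) × K // x.2 * x.1.2 ^ α + H x.1.1 x.1.2 = 0} ≃
      (V × {v : K // v ≠ 0}) ⊕ ({p : V // H p 0 = 0} × K) where
  toFun x := if h : x.1.1.2 = 0 then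
      Sum.inr (⟨x.1.1.1, by
        have h1 := x.2
        rw [h, zero_pow hα.ne', mul_zero, zero_add] at h1
        exact h1⟩, x.1.2)
    else Sum.inl (x.1.1.1, ⟨x.1.1.2, h⟩)
  invFun y := Sum.elim (fun a => ⟨((a.1, a.2.1), -H a.1 a.2.1 / a.2.1 ^ α), by
      have h : a.2.1 ^ α ≠ 0 := pow_ne_zero _ a.2.2
      change -H a.1 a.2.1 / a.2.1 ^ α * a.2.1 ^ α + H a.1 a.2.1 = 0
      rw [div_mul_cancel₀ _ h, neg_add_cancel]⟩)
    (fun b => ⟨((b.1.1, 0), b.2), by
      change b.2 * (0 : K) ^ α + H b.1.1 0 = 0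
      rw [zero_pow hα.ne', mul_zero, zero_add]
      exact b.1.2⟩) y
  left_inv := by
    rintro ⟨⟨⟨p, v⟩, u⟩, h⟩
    by_cases hv : v = 0
    · subst hv
      simp
    · have h1 : v ^ α ≠ 0 := pow_ne_zero _ hv
      simp only [hv, dite_false, Sum.elim_inl, Subtype.mk.injEq, Prod.mk.injEq, true_and]
      rw [div_eq_iff h1]
      have h2 : u * v ^ α + H p v = 0 := h
      exact (eq_neg_of_add_eq_zero_left h2).symm
  right_inv := by
    rintro (⟨p, v, hv⟩ | ⟨⟨p, hp⟩, u⟩)
    · simp [hv]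
    · simp

theorem count_step {V K : Type} [Finite V] [Field K] [Finite K] (α : ℕ) (hα : 0 < α)
    (H : V → K → K) :
    (Nat.card {x : (V × K) × K // x.2 * x.1.2 ^ α + H x.1.1 x.1.2 = 0} : ℤ) =
      (Nat.card K - 1) * Nat.card V + Nat.card K * Nat.card {p : V // H p 0 = 0} := by
  have h1 : Nat.card {v : K // v ≠ 0} + 1 = Nat.card K := by
    classical
    have := Fintype.ofFinite K
    rw [Nat.card_eq_fintype_card, Nat.card_eq_fintype_card, Fintype.card_subtype_compl,
      Fintype.card_subtype_eq]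
    exact Nat.sub_add_cancel Fintype.card_pos
  rw [Nat.card_congr (stepEquiv α hα H), Nat.card_sum, Nat.card_prod, Nat.card_prod, ← h1]
  push_cast
  ring

end Pool.Agent.Helper49.KP
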